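import Mathlib

set_option autoImplicit false

open unitInterval

namespace Pool.Agent.Results.MP_478a43_lc.CpLcp

/-- A fuzzy negation on `[0,1]`. -/
def IsNegation (N : I → I) : Prop := Antitone N ∧ N 0 = 1 ∧ N 1 = 0

/-- A fuzzy implication on `[0,1]`. -/
def IsImplication (J : I → I → I) : Prop :=
  (∀ y, Antitone fun x => J x y) ∧ (∀ x, Monotone (J x)) ∧ J 0 0 = 1 ∧ J 1 1 = 1 ∧ J 1 0 = 0

theorem result (J : I → I → I) (N : I → I) (_hJ : IsImplication J) (_hN : IsNegation N)
    (cp : ∀ x y, J x y = J (N y) (N x)) (lcp : ∀ x y, J (N x) y = J (N y) x) :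
    ∀ x y, J x (N y) = J y (N x) := by
  intro x y
  have h : ∀ a b, J (N a) b = J (N a) (N (N b)) := fun a b => by
    rw [lcp a b, cp (N b) a]
  calc J x (N y) = J (N (N y)) (N x) := cp _ _
    _ = J (N (N x)) (N (N (N y))) := cp _ _
    _ = J (N (N x)) (N y) := (h (N x) (N y)).symm
    _ = J y (N x) := (cp y (N x)).symm

end Pool.Agent.Results.MP_478a43_lc.CpLcp
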